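import Mathlib

set_option autoImplicit false

/-!
# Project PL (MP_d6b153_co): stack layouts of planar lattices. Definitions for the pages part.

Everything is stated for a finite lattice `V` with a realizer `R` (two linear orders whose
intersection is the order of `V`; the bridge from drawings to realizers and the block order
are done by helper80).
-/

namespace Pool.Agent.Helper84.PL

/-- A realizer of the order of `V`: the order is the intersection of the two linear orders given by
the injective numberings `lam` and `rho`. -/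
structure Rz (V : Type) [PartialOrder V] where
  lam : V → ℕ
  rho : V → ℕ
  lam_inj : Function.Injective lam
  rho_inj : Function.Injective rho
  lt_iff : ∀ x y : V, x < y ↔ lam x < lam y ∧ rho x < rho y

section PO

variable {V : Type} [PartialOrder V]

/-- `x` is left of `y`. -/
def Lf (R : Rz V) (x y : V) : Prop := R.lam x < R.lam y ∧ R.rho y < R.rho x

/-- The mirror image of a realizer. -/
def Rz.sw (R : Rz V) : Rz V where
  lam := R.rho
  rho := R.lam
  lam_inj := R.rho_inj
  rho_inj := R.lam_inj
  lt_iff := fun x y => by rw [R.lt_iff]; exact and_comm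

/-- `Ch χ u v p`: there is a saturated chain from `u` to `v` with exactly `p` colour changes. -/
inductive Ch (χ : V → Bool) : V → V → ℕ → Prop
  | refl (u : V) : Ch χ u u 0
  | same (u v w : V) (n : ℕ) : Ch χ u v n → v ⋖ w → χ v = χ w → Ch χ u w n
  | diff (u v w : V) (n : ℕ) : Ch χ u v n → v ⋖ w → χ v ≠ χ w → Ch χ u w (n + 1)

/-- `Mo χ u v n`: there is a monochromatic saturated chain from `u` to `v` with `n` steps, that is
with `n + 1` elements. -/
inductive Mo (χ : V → Bool) : V → V → ℕ → Prop
  | refl (u : V) : Mo χ u u 0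
  | step (u v w : V) (n : ℕ) : Mo χ u v n → v ⋖ w → χ v = χ w → Mo χ u w (n + 1)

/-- Two saturated chains with the same ends have the same number of changes, or both have at
least two. -/
def H2 (χ : V → Bool) : Prop :=
  ∀ (u v : V) (p q : ℕ), Ch χ u v p → Ch χ u v q → p ≤ 1 → q = p

/-- `(u, w)` is a cover pair, `u` has the colour `b` and `w` the other colour. `true` is
white and `false` is black. -/
def Ed (χ : V → Bool) (b : Bool) (u w : V) : Prop := u ⋖ w ∧ χ u = b ∧ χ w = !b

/-- The block order `τ`: the blocks (level sets of `τ`) are monochromatic and unions of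
monochromatic components; the bichromatic cover pairs go up; two white-black cover pairs do not
cross, two black-white cover pairs do not cross; the pairs leaving or entering one block are
nested in the right order. -/
structure Blk (R : Rz V) (χ : V → Bool) (τ : V → ℕ) : Prop where
  same : ∀ u w : V, u ⋖ w → χ u = χ w → τ u = τ w
  diff : ∀ u w : V, u ⋖ w → χ u ≠ χ w → τ u < τ w
  col : ∀ u v : V, τ u = τ v → χ u = χ v
  nc : ∀ (b : Bool) (u w u' w' : V), Ed χ b u w → Ed χ b u' w' →
    ¬ (τ u < τ u' ∧ τ u' < τ w ∧ τ w < τ w')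
  oW : ∀ u w u' w' : V, Ed χ true u w → Ed χ true u' w' → τ u = τ u' → Lf R u u' → τ w' ≤ τ w
  oB : ∀ u w u' w' : V, Ed χ false u w → Ed χ false u' w' → τ u = τ u' → Lf R u' u → τ w' ≤ τ w
  iW : ∀ u w u' w' : V, Ed χ true u w → Ed χ true u' w' → τ w = τ w' → Lf R w' w → τ u' ≤ τ u
  iB : ∀ u w u' w' : V, Ed χ false u w → Ed χ false u' w' → τ w = τ w' → Lf R w w' → τ u' ≤ τ u

/-- The linear order inside and between the blocks. -/
def sig (R : Rz V) (χ : V → Bool) (τ : V → ℕ) (M : ℕ) (v : V) : ℕ :=
  M * τ v + (if χ v = true then R.lam v else R.rho v)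

end PO

/-- The poset `V` is planar: its cover diagram has an upward planar drawing. The element `v` is
drawn at the point `p v` and the cover pair `a ⋖ b` as the curve `γ a b : [0,1] → ℝ × ℝ` from
`p a` to `p b`, with strictly increasing second coordinate, which meets no other point `p v`; two
different curves meet only in points `p v`. -/
def UpwardPlanar (V : Type) [PartialOrder V] : Prop :=
  ∃ (p : V → ℝ × ℝ) (γ : V → V → ℝ → ℝ × ℝ),
    Function.Injective p ∧
    (∀ a b : V, a ⋖ b →
      ContinuousOn (γ a b) (Set.Icc 0 1) ∧ γ a b 0 = p a ∧ γ a b 1 = p b ∧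
      (∀ s ∈ Set.Icc (0:ℝ) 1, ∀ t ∈ Set.Icc (0:ℝ) 1, s < t → (γ a b s).2 < (γ a b t).2) ∧
      (∀ v : V, ∀ s ∈ Set.Icc (0:ℝ) 1, γ a b s = p v → v = a ∨ v = b)) ∧
    (∀ a b c d : V, a ⋖ b → c ⋖ d → (a ≠ c ∨ b ≠ d) →
      ∀ s ∈ Set.Icc (0:ℝ) 1, ∀ t ∈ Set.Icc (0:ℝ) 1,
        γ a b s = γ c d t → ∃ v : V, γ a b s = p v)

/-- The poset `V` has a `k`-stack layout: a linear extension (given by the injective numbering
`σ`) and a colouring `c` of the cover pairs with `k` colours such that no two cover pairs of the
same colour cross. -/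
def StackLayout (k : ℕ) (V : Type) [PartialOrder V] : Prop :=
  ∃ (σ : V → ℕ) (c : V → V → Fin k),
    Function.Injective σ ∧ (∀ a b : V, a < b → σ a < σ b) ∧
    ∀ a b x y : V, a ⋖ b → x ⋖ y → c a b = c x y →
      ¬ (σ a < σ x ∧ σ x < σ b ∧ σ b < σ y)

end Pool.Agent.Helper84.PL
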