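import Pool.Agent.Helper84.PL.Defs

set_option autoImplicit false

/-!
# Project PL (MP_d6b153_co): stack layouts of planar lattices, pages part. Statements with proofs.

Conventions: white = `true`, black = `false`. In a realizer, for `x ≠ y` exactly one of `x < y`,
`y < x`, `Lf R x y`, `Lf R y x` holds; `Lf` is transitive; everything of this kind is linear
arithmetic in `lam` and `rho` (`x ≤ y` gives `lam x ≤ lam y` and `rho x ≤ rho y`).
-/

namespace Pool.Agent.Helper84.PL

/-- **MT** (the block order is monotone). PROOF. Induction on the number of elements between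
`u` and `v`: for `u < v` take `z` with `u ⋖ z ≤ v` (exists_covBy_le_of_lt, finite), then `τ u ≤ τ z` by
`same` or `diff`. Second part (`hm`): `u < v`, `τ u = τ v`: `u ⋖ z ≤ v`; `τ u ≤ τ z ≤ τ v`, so all are
equal; `χ u = χ z` by `col`; `h u < h z`, and `h z < h v` or `z = v` by induction. -/
def G_MT : Prop :=
  ∀ (V : Type) [Fintype V] [PartialOrder V] (R : Rz V) (χ : V → Bool) (τ : V → ℕ), Blk R χ τ →
    (∀ u v : V, u ≤ v → τ u ≤ τ v) ∧
    ∀ h : V → ℕ, (∀ u w : V, u ⋖ w → χ u = χ w → h u < h w) →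
      ∀ u v : V, u < v → τ u = τ v → h u < h v

/-- **HT** (heights). PROOF. `h v` = the largest `n` with `Mo χ u v n` for some `u`
(`n = 0` is possible, and `n < c`). -/
def G_HT : Prop :=
  ∀ (V : Type) [Fintype V] [PartialOrder V] (χ : V → Bool) (c : ℕ),
    (∀ (u v : V) (n : ℕ), Mo χ u v n → n < c) →
    ∃ h : V → ℕ, (∀ v, h v < c) ∧ ∀ u w : V, u ⋖ w → χ u = χ w → h u < h w

/-- **XL** (crossing lemma). PROOF. `lam v < lam u ≤ lam w`, so `v < w` or `v` is left of `w`
(`w ≤ v` would give `lam w ≤ lam v`); the second gives `v` left of `x`, but `v < x`. So `v < w`.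
`lam u ≤ lam w < lam x`, `rho u < rho v < rho x`, so `u < x`. `v ⊔ u ≤ w` and `v ⊔ u ≤ x`; `v < v ⊔ u`
(`u` is not `≤ v`), so `v ⊔ u = x` (cover), `x ≤ w`: contradiction to `Lf R w x`. -/
def G_XL : Prop :=
  ∀ (V : Type) [Lattice V] (R : Rz V) (v x u w : V),
    v ⋖ x → Lf R v u → u ≤ w → Lf R w x → False

/-- **FOR** (a forest is bipartite). PROOF. For `n : ℕ` there is `col` which is correct for all `x` with
`N ≤ f x + n`, where `N` is larger than all values of `f`; induction on `n`: change `col` at the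
`x` with `f x + n + 1 = N`, to `! col y` if there is `y` with `D x y` (it is unique and
`f x < f y`, so `col y` does not change). -/
def G_FOR : Prop :=
  ∀ (V : Type) [Fintype V] (f : V → ℕ) (D : V → V → Prop),
    (∀ x y, D x y → f x < f y) → (∀ x y z, D x y → D x z → y = z) →
    ∃ col : V → Bool, ∀ x y, D x y → col x ≠ col y

/-- **LIN** (the linear order). Allowed hypothesis: `G_MT`.

PROOF. `M τ v + r` with `r < M` determines `τ v` and `r`; `τ u = τ v` gives `χ u = χ v` (`col`), so the same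
numbering is used. `u < v`: `τ u ≤ τ v` by MT; if equal, the same numbering, and it increases. -/
def G_LIN : Prop :=
  ∀ (V : Type) [Fintype V] [PartialOrder V] (R : Rz V) (χ : V → Bool) (τ : V → ℕ) (M : ℕ),
    Blk R χ τ → (∀ v : V, R.lam v < M ∧ R.rho v < M) →
    Function.Injective (sig R χ τ M) ∧ ∀ u v : V, u < v → sig R χ τ M u < sig R χ τ M v

/-- **BI** (bichromatic pairs). Allowed hypothesis: `G_XL`.

PROOF. Write `σ = sig R χ τ M`. `σ u < σ u' < σ w < σ w'` gives `τ u ≤ τ u' ≤ τ w ≤ τ w'`, and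
`τ u' ≠ τ w` by `col`. For `b = true`: (1) `τ u < τ u'`, `τ w < τ w'`: `nc`. (2) `τ u = τ u'`,
`τ w < τ w'`: `lam u < lam u'`, so `u < u'` (then `h u < h u'`, no) or `Lf R u u'`; then `oW` gives
`τ w' ≤ τ w`, no. (3) `τ u < τ u'`, `τ w = τ w'`: `rho w < rho w'`, so `w < w'` (no, `h`) or `Lf R w' w`; then
`iW` gives `τ u' ≤ τ u`, no. (4) both equal: `Lf R u u'` and `Lf R w' w` as before; XL for
`v := u, x := w, u := u', w := w'`: contradiction. For `b = false` the numberings are exchanged:
(2) `Lf R u' u` and `oB`; (3) `Lf R w w'` and `iB`; (4) XL for `v := u', x := w', u := u, w := w`. -/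
def G_BI : Prop :=
  ∀ (V : Type) [Fintype V] [Lattice V] (R : Rz V) (χ : V → Bool) (τ h : V → ℕ) (M : ℕ),
    Blk R χ τ → (∀ v : V, R.lam v < M ∧ R.rho v < M) →
    (∀ u v : V, u < v → τ u = τ v → h u < h v) →
    ∀ (b : Bool) (u w u' w' : V), Ed χ b u w → Ed χ b u' w' → h u = h u' → h w = h w' →
    ¬ (sig R χ τ M u < sig R χ τ M u' ∧ sig R χ τ M u' < sig R χ τ M w ∧
      sig R χ τ M w < sig R χ τ M w')

/-- **MO** (monochromatic pairs). Allowed hypotheses: `G_XL`, `G_FOR`.

PROOF. Write `σ = sig R χ τ M`. Let first `b = true`. For `u, u'` let `D u u'` mean: there are `w, w'` with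
`u ⋖ w`, `u' ⋖ w'`, all four white, `h u = h u' = i`, `h w = h w' = j`, `σ u < σ u' < σ w < σ w'`. Then
`τ u = τ w` and `τ u' = τ w'`, and `τ u ≤ τ u' ≤ τ w`, so all four are in the same block, where `σ` is
ordered as `lam`. Two different elements of one block with the same `h` are incomparable. So
`Lf R u u'`, `Lf R w w'`. `lam u' < lam w`, so `u' < w` or `u'` is left of `w`; the second gives `u` left of
`w`, no: `u' < w`. CLAIM: `D u u'` (with `w, w'`) and `D u v` (with `y, y'`) imply `u' = v`.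
(i) `w = y`: otherwise they are incomparable (same block, same `h`), say `Lf R w y`: XL for
`v := u, x := y, u := u', w := w` (`u ⋖ y`, `Lf R u u'`, `u' ≤ w`, `Lf R w y`); if `Lf R y w`: XL for
`v := u, x := w, u := v, w := y`. (ii) `u' = v`: otherwise incomparable; if `Lf R u' v`: XL for
`v := u', x := w', u := v, w := w` (`u' ⋖ w'`, `Lf R u' v`, `v ≤ w`, `Lf R w w'`); if `Lf R v u'`: XL for
`v := v, x := y', u := u', w := w` (`v ⋖ y'`, `Lf R v u'`, `u' ≤ w`, `Lf R w y'`). Now FOR with
`f = σ`. For `b = false` apply the statement for `true` to `R.sw` (`Lf R.sw x y` iff `Lf R y x`) and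
the colouring `! χ`: `sig` is the same function, and the hypotheses are symmetric. -/
def G_MO : Prop :=
  ∀ (V : Type) [Fintype V] [Lattice V] (R : Rz V) (χ : V → Bool) (τ h : V → ℕ) (M : ℕ),
    (∀ v : V, R.lam v < M ∧ R.rho v < M) →
    (∀ u w : V, u ⋖ w → χ u = χ w → τ u = τ w) →
    (∀ u v : V, τ u = τ v → χ u = χ v) →
    (∀ u v : V, u < v → τ u = τ v → h u < h v) →
    ∀ (b : Bool) (i j : ℕ), ∃ col : V → Bool, ∀ u w u' w' : V, u ⋖ w → u' ⋖ w' →
      χ u = b → χ w = b → χ u' = b → χ w' = b → h u = i → h u' = i → h w = j → h w' = j →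
      sig R χ τ M u < sig R χ τ M u' → sig R χ τ M u' < sig R χ τ M w →
      sig R χ τ M w < sig R χ τ M w' → col u ≠ col u'

/-- **MAIN** (theorem for realizers). Allowed hypotheses: `G_MT`, `G_HT`, `G_LIN`, `G_BI`,
`G_MO`.

PROOF. `h` from HT, `M` larger than all values of `lam` and `rho`, `σ = sig R χ τ M`, `col b i j` from MO.
`c > 0` because `h v < c`. Pages: the elements of the type
`(Bool × Fin c × Fin c) ⊕ {p : Fin c × Fin c // p.1 ≠ p.2}` with `2 c^2 + (c^2 - c) = 3 c^2 - c` elements.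
The page of a cover pair `(u, w)`: if `χ u ≠ χ w`: `inl (χ u, h u, h w)`; if `χ u = χ w = b` then
`h u < h w`; it is `inr (h u, h w)` if `col b (h u) (h w) u = true` and `inr (h w, h u)` otherwise. (Other
pairs: any page.) Two crossing cover pairs on the same page are both bichromatic or both
monochromatic. Bichromatic: BI. Monochromatic: since `h u < h w` and `h u' < h w'` the page gives
`h u = h u'`, `h w = h w'` and the same value of `col` if `χ u = χ u'`; then MO. If `χ u ≠ χ u'`: both
pairs are inside blocks (`Blk.same`), `τ u ≤ τ u' ≤ τ w = τ u`, so `τ u = τ u'` and `χ u = χ u'` by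
`col`, no. -/
def G_MAIN : Prop :=
  ∀ (V : Type) [Fintype V] [Nonempty V] [Lattice V] (R : Rz V) (χ : V → Bool) (τ : V → ℕ) (c : ℕ),
    Blk R χ τ → (∀ (u v : V) (n : ℕ), Mo χ u v n → n < c) → StackLayout (3 * c ^ 2 - c) V

/-- **BIP** (bipartite cover graph). PROOF. `Mo`: no step is possible. `H2`: by induction `Ch χ u v p` gives
`u ≤ v`, `p = 0` iff `u = v` (every cover pair is bichromatic), and `p = 1` implies `u ⋖ v`;
conversely if `u ⋖ v` then every saturated chain from `u` to `v` has one step, so `q = 1`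
(`Ch χ u v q` with `q ≥ 2` would give an element strictly between). -/
def G_BIP : Prop :=
  ∀ (V : Type) [PartialOrder V] (χ : V → Bool), (∀ u w : V, u ⋖ w → χ u ≠ χ w) →
    (∀ (u v : V) (n : ℕ), Mo χ u v n → n < 1) ∧ H2 χ

/-- **STR** (bounded stretch). PROOF. `χ v = decide (Even (r v / c))` (floor division in `ℤ`). Along a
cover pair `r v / c` increases by `0` or `1`, and `χ` changes exactly if it increases by `1`. So
`Ch χ u v p` implies `p = r v / c - r u / c`: `H2`. `Mo χ u v n`: `r v / c = r u / c` and `r v ≥ r u + n`, so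
`n < c`. -/
def G_STR : Prop :=
  ∀ (V : Type) [PartialOrder V] (c : ℕ) (r : V → ℤ), 0 < c →
    (∀ u w : V, u ⋖ w → 1 ≤ r w - r u ∧ r w - r u ≤ c) →
    ∃ χ : V → Bool, (∀ (u v : V) (n : ℕ), Mo χ u v n → n < c) ∧ H2 χ

/-- **RNK** (from real to natural block numbers). PROOF. `τ v` = number of the values `β w` with
`β w < β v` (`w` in `V`); then `τ u < τ v ↔ β u < β v`. -/
def G_RNK : Prop :=
  ∀ (V : Type) [Fintype V] (β : V → ℝ), ∃ τ : V → ℕ, ∀ u v : V, τ u < τ v ↔ β u < β v

end Pool.Agent.Helper84.PL
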