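import Pool.Agent.Helper84.PL.Goals
import Pool.Agent.Helper80.Lat.Beta2

set_option autoImplicit false

/-!
# Project PL: saturated chains as lists
-/

namespace Pool.Agent.Helper84.PL

open Pool.Agent.Helper80.Lat (chg chg_append)

variable {V : Type} [PartialOrder V] (χ : V → Bool)

omit [PartialOrder V] in
theorem split_last (l : List V) : l = [] ∨ ∃ l0 x, l = l0 ++ [x] := by
  rcases List.eq_nil_or_concat l with h | ⟨l0, x, h⟩
  · exact Or.inl h
  · exact Or.inr ⟨l0, x, by simpa using h⟩

theorem chain_snoc (l0 : List V) (x y : V) (h : (l0 ++ [x] ++ [y]).IsChain (· ⋖ ·)) :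
    (l0 ++ [x]).IsChain (· ⋖ ·) ∧ x ⋖ y := by
  rw [List.isChain_append] at h
  refine ⟨h.1, ?_⟩
  exact h.2.2 x (by simp) y (by simp)

theorem ch_of_list : ∀ (l : List V), l.IsChain (· ⋖ ·) → ∀ u v, l.head? = some u →
    l.getLast? = some v → Ch χ u v (chg χ l) := by
  intro l
  induction l using List.reverseRecOn with
  | nil => intro _ u v h; simp at h
  | append_singleton l y ih =>
    intro hc u v hu hv
    have hy : y = v := by simpa using hv
    subst hy
    rcases split_last l with h | ⟨l0, x, h⟩
    · subst h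
      have : y = u := by simpa using hu
      subst this
      exact Ch.refl _
    · subst h
      obtain ⟨h1, h2⟩ := chain_snoc l0 x y hc
      have h3 := ih h1 u x (by
        rw [List.head?_append] at hu
        rcases h5 : (l0 ++ [x]).head? with _ | z
        · simp at h5
        · rw [h5] at hu; simpa using hu) (by simp)
      rw [chg_append]
      by_cases h4 : χ x = χ y
      · rw [if_pos h4]
        exact Ch.same _ _ _ _ h3 h2 h4
      · rw [if_neg h4]
        exact Ch.diff _ _ _ _ h3 h2 h4

theorem mo_of_list : ∀ (l : List V), l.IsChain (· ⋖ ·) → ∀ u v, l.head? = some u →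
    l.getLast? = some v → chg χ l = 0 → Mo χ u v (l.length - 1) := by
  intro l
  induction l using List.reverseRecOn with
  | nil => intro _ u v h; simp at h
  | append_singleton l y ih =>
    intro hc u v hu hv h0
    have hy : y = v := by simpa using hv
    subst hy
    rcases split_last l with h | ⟨l0, x, h⟩
    · subst h
      have : y = u := by simpa using hu
      subst this
      exact Mo.refl _
    · subst h
      obtain ⟨h1, h2⟩ := chain_snoc l0 x y hc
      rw [chg_append] at h0
      have h3 := ih h1 u x (by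
        rw [List.head?_append] at hu
        rcases h5 : (l0 ++ [x]).head? with _ | z
        · simp at h5
        · rw [h5] at hu; simpa using hu) (by simp) (by omega)
      have h4 : χ x = χ y := by
        by_contra h6
        rw [if_neg h6] at h0
        omega
      have h7 : (l0 ++ [x] ++ [y]).length - 1 = ((l0 ++ [x]).length - 1) + 1 := by simp
      rw [h7]
      exact Mo.step _ _ _ _ h3 h2 h4

theorem list_of_mo {u v : V} {n : ℕ} (h : Mo χ u v n) : ∃ l : List V, l.IsChain (· ⋖ ·) ∧
    l.getLast? = some v ∧ chg χ l = 0 ∧ l.length = n + 1 := by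
  induction h with
  | refl => exact ⟨[u], by simp, by simp, by simp [chg], by simp⟩
  | step v w n _ h1 h2 ih =>
    obtain ⟨l, g1, g2, g3, g4⟩ := ih
    rcases split_last l with h | ⟨l0, x, h⟩
    · subst h; simp at g2
    · subst h
      have : x = v := by simpa using g2
      subst this
      refine ⟨l0 ++ [x] ++ [w], ?_, by simp, ?_, by simp at g4 ⊢; omega⟩
      · rw [List.isChain_append]
        refine ⟨g1, by simp, ?_⟩
        intro a ha b hb
        have e1 : x = a := by simpa using ha
        have e2 : w = b := by simpa using hb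
        subst e1; subst e2
        exact h1
      · rw [chg_append, g3, if_pos h2]

theorem list_of_ch {u v : V} {n : ℕ} (h : Ch χ u v n) : ∃ l : List V, l.IsChain (· ⋖ ·) ∧
    l.head? = some u ∧ l.getLast? = some v ∧ chg χ l = n := by
  have key : ∀ (l : List V) (v w : V), l.IsChain (· ⋖ ·) → l.head? = some u →
      l.getLast? = some v → v ⋖ w → ∃ l' : List V, l'.IsChain (· ⋖ ·) ∧ l'.head? = some u ∧
      l'.getLast? = some w ∧ chg χ l' = chg χ l + (if χ v = χ w then 0 else 1) := by
    intro l v w g1 g0 g2 h1
    rcases split_last l with h | ⟨l0, x, h⟩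
    · subst h; simp at g2
    · subst h
      have : x = v := by simpa using g2
      subst this
      refine ⟨l0 ++ [x] ++ [w], ?_, ?_, by simp, by rw [chg_append]⟩
      · rw [List.isChain_append]
        refine ⟨g1, by simp, ?_⟩
        intro a ha b hb
        have e1 : x = a := by simpa using ha
        have e2 : w = b := by simpa using hb
        subst e1; subst e2
        exact h1
      · rw [List.head?_append, g0]; rfl
  induction h with
  | refl => exact ⟨[u], by simp, by simp, by simp, by simp [chg]⟩
  | same v w n _ h1 h2 ih =>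
    obtain ⟨l, g1, g0, g2, g3⟩ := ih
    obtain ⟨l', k1, k2, k3, k4⟩ := key l v w g1 g0 g2 h1
    exact ⟨l', k1, k2, k3, by rw [k4, g3, if_pos h2]; rfl⟩
  | diff v w n _ h1 h2 ih =>
    obtain ⟨l, g1, g0, g2, g3⟩ := ih
    obtain ⟨l', k1, k2, k3, k4⟩ := key l v w g1 g0 g2 h1
    exact ⟨l', k1, k2, k3, by rw [k4, g3, if_neg h2]⟩

/-- The conditions in terms of lists. -/
def L1 (c : ℕ) : Prop := ∀ l : List V, l.IsChain (· ⋖ ·) → chg χ l = 0 → l.length ≤ c

def L2 : Prop := ∀ l l' : List V, l.IsChain (· ⋖ ·) → l'.IsChain (· ⋖ ·) →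
  l.head? = l'.head? → l.getLast? = l'.getLast? → chg χ l ≤ 1 → chg χ l' = chg χ l

theorem mo_of_L1 {c : ℕ} (h : L1 χ c) : ∀ (u v : V) (n : ℕ), Mo χ u v n → n < c := by
  intro u v n hm
  obtain ⟨l, g1, _, g3, g4⟩ := list_of_mo χ hm
  have := h l g1 g3
  omega

theorem L1_of_mo {c : ℕ} (h : ∀ (u v : V) (n : ℕ), Mo χ u v n → n < c) : L1 χ c := by
  intro l hl h0
  rcases hu : l.head? with _ | u
  · rw [List.head?_eq_none_iff] at hu
    subst hu; simp
  · rcases hv : l.getLast? with _ | v
    · rw [List.getLast?_eq_none_iff] at hv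
      subst hv; simp
    · have := h u v _ (mo_of_list χ l hl u v hu hv h0)
      omega

theorem L2_of_H2 (h : H2 χ) : L2 χ := by
  intro l l' hl hl' h1 h2 h3
  rcases hu : l.head? with _ | u
  · have hu' : l'.head? = none := by rw [← h1, hu]
    rw [List.head?_eq_none_iff] at hu hu'
    subst hu; subst hu'; rfl
  · rcases hv : l.getLast? with _ | v
    · rw [List.getLast?_eq_none_iff] at hv
      subst hv; simp at hu
    · exact h u v _ _ (ch_of_list χ l hl u v hu hv)
        (ch_of_list χ l' hl' u v (by rw [← h1, hu]) (by rw [← h2, hv])) h3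

theorem H2_of_L2 (h : L2 χ) : H2 χ := by
  intro u v p q hp hq hp1
  obtain ⟨l, g1, g0, g2, g3⟩ := list_of_ch χ hp
  obtain ⟨l', k1, k0, k2, k3⟩ := list_of_ch χ hq
  have := h l l' g1 k1 (by rw [g0, k0]) (by rw [g2, k2]) (by omega)
  omega

theorem good_of_L2 (h : L2 χ) : Pool.Agent.Helper80.Lat.H2 χ := by
  intro l l' hl hl' h1 h2
  have a := h l l' hl hl' h1 h2
  have b := h l' l hl' hl h1.symm h2.symm
  unfold Pool.Agent.Helper80.Lat.Good2
  omega

end Pool.Agent.Helper84.PL
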