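import Pool.Agent.Helper84.PL.Lists
import Pool.Agent.Helper80.Lat.Glue
import Pool.Agent.Helper86.PL.MT
import Pool.Agent.Helper61.PL.HT
import Pool.Agent.Helper61.PL.LIN
import Pool.Agent.Helper5.PL.XL
import Pool.Agent.Helper96.PL.FOR
import Pool.Agent.Helper44.PL.BI
import Pool.Agent.Helper44.PL.MO
import Pool.Agent.Helper56.PL.MAIN

set_option autoImplicit false

/-!
# Project PL: the general theorem
-/

namespace Pool.Agent.Helper84.PL

theorem empty_layout (k : ℕ) (V : Type) [PartialOrder V] [IsEmpty V] : StackLayout k V :=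
  ⟨fun _ => 0, fun v => isEmptyElim v, fun v => isEmptyElim v, fun v => isEmptyElim v,
    fun v => isEmptyElim v⟩

theorem main (V : Type) [Fintype V] [Lattice V] (hV : UpwardPlanar V) (χ : V → Bool) (c : ℕ)
    (h1 : ∀ (u v : V) (n : ℕ), Mo χ u v n → n < c) (h2 : H2 χ) :
    StackLayout (3 * c ^ 2 - c) V := by
  rcases isEmpty_or_nonempty V with hE | hN
  · exact empty_layout _ V
  · obtain ⟨R, τ, hB⟩ := Pool.Agent.Helper80.Lat.glue V hV χ h2
    have hXL := Pool.Agent.Helper5.PL.xl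
    exact Pool.Agent.Helper56.PL.main Pool.Agent.Helper86.PL.mt Pool.Agent.Helper61.PL.ht
      (Pool.Agent.Helper61.PL.lin Pool.Agent.Helper86.PL.mt) (Pool.Agent.Helper44.PL.bi hXL)
      (Pool.Agent.Helper44.PL.mo hXL Pool.Agent.Helper96.PL.for_) V R χ τ c hB h1

end Pool.Agent.Helper84.PL
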